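import Pool.Agent.H8.ZA.Targets

/-!
# Zariski dense orbits: module NDG (bounded characteristic polynomials)
-/

namespace Pool.Agent.H67.ZA

open Pool.Agent.H8.ZA
open Polynomial

section

variable {k : Type} [Field k] {A : Type} [CommRing A] [IsDomain A] [Algebra k A]
  [Algebra (Polynomial k) A] [IsScalarTower k (Polynomial k) A] [Module.Finite (Polynomial k) A]
  [Module.Free (Polynomial k) A]

/-- the degree of the norm of `c - τ a` does not depend on the automorphism `τ` -/
theorem natDegree_norm_aut (τ : A ≃ₐ[k] A) (x : A) :
    (Algebra.norm (Polynomial k) (τ x)).natDegree = (Algebra.norm (Polynomial k) x).natDegree := by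
  by_cases hx : x = 0
  · rw [hx, map_zero]
  have hτ : τ x ≠ 0 := by
    intro h
    apply hx
    apply τ.injective
    rw [h, map_zero]
  have b := Module.Free.chooseBasis (Polynomial k) A
  rw [← finrank_quotient_span_eq_natDegree_norm (F := k) b hτ,
    ← finrank_quotient_span_eq_natDegree_norm (F := k) b hx]
  symm
  apply LinearEquiv.finrank_eq
  refine (Ideal.quotientEquivAlg (R₁ := k) (Ideal.span {x}) (Ideal.span {τ x}) τ ?_).toLinearEquiv
  rw [Ideal.map_span, Set.image_singleton]
  rfl

/-- the values of the characteristic polynomial at constants -/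
theorem eval_chi (b : A) (c : k) :
    ((Algebra.lmul (Polynomial k) A b).charpoly).eval (C c) =
      Algebra.norm (Polynomial k) (algebraMap k A c - b) := by
  rw [LinearMap.eval_charpoly, Algebra.norm_apply]
  congr 1
  have h1 : algebraMap k A c = algebraMap (Polynomial k) A (C c) := by
    rw [IsScalarTower.algebraMap_apply k (Polynomial k) A]
    rfl
  rw [h1]
  have h2 := map_sub (Algebra.lmul (Polynomial k) A) (algebraMap (Polynomial k) A (C c)) b
  rw [AlgHom.commutes] at h2
  exact h2.symm

end

/-- bound for the coefficients from a bound for the values at constants -/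
theorem coeff_bound {k : Type} [Field k] [Infinite k] (P : Polynomial (Polynomial k)) (M : ℕ)
    (h : ∀ c : k, (P.eval (C c)).natDegree ≤ M) (j : ℕ) : (P.coeff j).natDegree ≤ M := by
  rw [natDegree_le_iff_coeff_eq_zero]
  intro m hm
  let R : Polynomial k := ∑ j ∈ P.support, monomial j ((P.coeff j).coeff m)
  have hR : R = 0 := by
    apply Polynomial.funext
    intro c
    rw [eval_zero]
    have h1 : (P.eval (C c)).coeff m = 0 := coeff_eq_zero_of_natDegree_lt (lt_of_le_of_lt (h c) hm)
    rw [eval_eq_sum, Polynomial.sum, finsetSum_coeff] at h1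
    show R.eval c = 0
    rw [eval_finsetSum, ← h1]
    refine Finset.sum_congr rfl fun i _ => ?_
    rw [eval_monomial, ← C_pow, coeff_mul_C]
  by_cases hj : j ∈ P.support
  · have h2 : R.coeff j = (P.coeff j).coeff m := by
      show (∑ j ∈ P.support, monomial j ((P.coeff j).coeff m)).coeff j = _
      rw [finsetSum_coeff, Finset.sum_eq_single j]
      · rw [coeff_monomial, if_pos rfl]
      · intro i _ hi
        rw [coeff_monomial, if_neg hi]
      · intro h
        exact absurd hj h
    rw [← h2, hR, coeff_zero]
  · rw [notMem_support_iff] at hj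
    rw [hj, coeff_zero]

/-- **NDG.** -/
theorem pf_NDG : T_NDG := by
  intro k _ _ A _ _ _ g σ a hg hfin
  letI : Algebra (Polynomial k) A := g.toRingHom.toAlgebra
  haveI : IsScalarTower k (Polynomial k) A :=
    IsScalarTower.of_algebraMap_eq (fun x => (g.commutes x).symm)
  haveI : Module.Finite (Polynomial k) A := hfin
  haveI : FaithfulSMul (Polynomial k) A := (faithfulSMul_iff_algebraMap_injective _ _).mpr hg
  haveI : Module.IsTorsionFree (Polynomial k) A := inferInstance
  haveI : Module.Free (Polynomial k) A := inferInstance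
  let χ : A → Polynomial (Polynomial k) := fun b => (Algebra.lmul (Polynomial k) A b).charpoly
  let M : ℕ := (χ a).support.sup fun j => ((χ a).coeff j).natDegree
  have hM : ∀ j, ((χ a).coeff j).natDegree ≤ M := by
    intro j
    by_cases hj : j ∈ (χ a).support
    · exact Finset.le_sup (f := fun j => ((χ a).coeff j).natDegree) hj
    · rw [notMem_support_iff] at hj
      rw [hj, natDegree_zero]
      exact Nat.zero_le _
  have hMc : ∀ c : k, ((χ a).eval (C c)).natDegree ≤ M := by
    intro c
    rw [eval_eq_sum, Polynomial.sum]
    refine natDegree_sum_le_of_forall_le _ _ fun j _ => ?_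
    rw [← C_pow]
    exact (natDegree_mul_C_le _ _).trans (hM j)
  refine ⟨M, fun n => ⟨χ ((σ ^ n) a), LinearMap.charpoly_monic _, ?_, ?_⟩⟩
  · apply coeff_bound
    intro c
    have h1 : algebraMap k A c - (σ ^ n) a = (σ ^ n) (algebraMap k A c - a) := by
      rw [map_sub, AlgEquiv.commutes]
    show (((Algebra.lmul (Polynomial k) A ((σ ^ n) a)).charpoly).eval (C c)).natDegree ≤ M
    rw [eval_chi, h1, natDegree_norm_aut, ← eval_chi]
    exact hMc c
  · exact Algebra.aeval_self_charpoly_lmul (R := Polynomial k) ((σ ^ n) a)

end Pool.Agent.H67.ZA
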