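import Pool.Agent.H8.ZA.Targets

/-!
# Zariski dense orbits: module NRM (norm and intersection number of two plane curves)
-/

namespace Pool.Agent.H67.ZA

open Pool.Agent.H8.ZA
open Polynomial

section Det

variable {Ω : Type} [Field Ω] [IsAlgClosed Ω]

/-- two multiplicative maps on `Ω[X]` which agree on constants and on `X - a` are equal -/
theorem monoidHom_ext_of_isAlgClosed (D E : Polynomial Ω →* Ω) (hC : ∀ c, D (C c) = E (C c))
    (hX : ∀ a, D (X - C a) = E (X - C a)) (P : Polynomial Ω) : D P = E P := by
  have h := (IsAlgClosed.splits P).eq_prod_roots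
  rw [h, map_mul, map_mul, hC, map_multiset_prod, map_multiset_prod, Multiset.map_map,
    Multiset.map_map]
  congr 2
  refine Multiset.map_congr rfl fun a _ => ?_
  exact hX a

variable {ι : Type} [Fintype ι] [DecidableEq ι]

theorem card_roots_charpoly (N : Matrix ι ι Ω) :
    Multiset.card N.charpoly.roots = Fintype.card ι := by
  rw [← (IsAlgClosed.splits N.charpoly).natDegree_eq_card_roots, N.charpoly_natDegree_eq_dim]

/-- the determinant of a polynomial in a matrix -/
theorem det_aeval (N : Matrix ι ι Ω) (P : Polynomial Ω) :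
    (aeval N P).det = (N.charpoly.roots.map fun ξ => P.eval ξ).prod := by
  let D : Polynomial Ω →* Ω :=
    Matrix.detMonoidHom.comp (aeval N : Polynomial Ω →ₐ[Ω] Matrix ι ι Ω).toRingHom.toMonoidHom
  let E : Polynomial Ω →* Ω :=
    { toFun := fun P => (N.charpoly.roots.map fun ξ => P.eval ξ).prod
      map_one' := by simp
      map_mul' := by
        intro P Q
        simp only [eval_mul]
        exact Multiset.prod_map_mul }
  refine monoidHom_ext_of_isAlgClosed D E ?_ ?_ P
  · intro c
    show (aeval N (C c)).det = (N.charpoly.roots.map fun ξ => (C c).eval ξ).prod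
    rw [aeval_C]
    simp only [eval_C, Multiset.map_const', Multiset.prod_replicate]
    rw [card_roots_charpoly, Matrix.algebraMap_eq_diagonal, Matrix.det_diagonal]
    simp
  · intro a
    show (aeval N (X - C a)).det = (N.charpoly.roots.map fun ξ => (X - C a).eval ξ).prod
    have h1 : aeval N (X - C a) = - (Matrix.scalar ι a - N) := by
      rw [map_sub, aeval_X, aeval_C, neg_sub]
      rfl
    rw [h1, Matrix.det_neg, ← Matrix.eval_charpoly]
    have h2 := (IsAlgClosed.splits N.charpoly).eq_prod_roots
    rw [N.charpoly_monic.leadingCoeff, C_1, one_mul] at h2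
    have h3 : N.charpoly.eval a = (N.charpoly.roots.map fun ξ => a - ξ).prod := by
      conv_lhs => rw [h2]
      rw [eval_multiset_prod, Multiset.map_map]
      congr 1
      refine Multiset.map_congr rfl fun ξ _ => ?_
      simp
    rw [h3, ← card_roots_charpoly N]
    have h4 : (-1 : Ω) ^ (Multiset.card N.charpoly.roots) =
        (N.charpoly.roots.map fun _ => (-1 : Ω)).prod := by
      rw [Multiset.map_const', Multiset.prod_replicate]
    rw [h4, ← Multiset.prod_map_mul]
    congr 1
    refine Multiset.map_congr rfl fun ξ _ => ?_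
    simp

end Det

section Main

variable {R : Type} [CommRing R] [IsDomain R]

/-- the characteristic polynomial of the multiplication by the root -/
theorem charpoly_root (T : Polynomial R) (hT : T.Monic) :
    (Algebra.leftMulMatrix (AdjoinRoot.powerBasis' hT).basis (AdjoinRoot.root T)).charpoly = T := by
  set b := (AdjoinRoot.powerBasis' hT).basis with hb
  set χ := (Algebra.leftMulMatrix b (AdjoinRoot.root T)).charpoly with hχ
  have h1 : aeval (AdjoinRoot.root T) χ = 0 := by
    apply Algebra.leftMulMatrix_injective b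
    rw [map_zero, ← aeval_algHom_apply]
    exact Matrix.aeval_self_charpoly _
  rw [AdjoinRoot.aeval_eq, AdjoinRoot.mk_eq_zero] at h1
  refine eq_of_monic_of_dvd_of_natDegree_le hT (Matrix.charpoly_monic _) h1 ?_
  rw [hχ, Matrix.charpoly_natDegree_eq_dim, Fintype.card_fin]
  exact le_of_eq (AdjoinRoot.powerBasis'_dim hT)

/-- the norm is the product over the roots -/
theorem norm_eq_prod {Ω : Type} [Field Ω] [IsAlgClosed Ω] (φ : R →+* Ω) (T : Polynomial R)
    (hT : T.Monic) (S : Polynomial R) :
    φ (Algebra.norm R (AdjoinRoot.mk T S)) =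
      ((T.map φ).roots.map fun ξ => (S.map φ).eval ξ).prod := by
  set b := (AdjoinRoot.powerBasis' hT).basis with hb
  set M := Algebra.leftMulMatrix b (AdjoinRoot.root T) with hM
  have h1 : Algebra.norm R (AdjoinRoot.mk T S) = (aeval M S).det := by
    rw [Algebra.norm_eq_matrix_det b, ← AdjoinRoot.aeval_eq, hM, aeval_algHom_apply]
  have h2 : (M.map φ).charpoly = T.map φ := by
    rw [Matrix.charpoly_map, charpoly_root]
  have h3 : (aeval M S).map φ = aeval (M.map φ) (S.map φ) := by
    have h4 : ∀ P : Polynomial R, φ.mapMatrix (aeval M P) = aeval (φ.mapMatrix M) (P.map φ) := by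
      intro P
      induction P using Polynomial.induction_on' with
      | add p q hp hq => rw [map_add, map_add, hp, hq, Polynomial.map_add, map_add]
      | monomial n a =>
        rw [aeval_monomial, map_mul, map_pow, Polynomial.map_monomial, aeval_monomial]
        congr 1
        rw [Matrix.algebraMap_eq_diagonal, Matrix.algebraMap_eq_diagonal]
        ext i j
        by_cases h : i = j <;> simp [h]
    exact h4 S
  rw [h1, RingHom.map_det]
  show ((aeval M S).map φ).det = _
  rw [h3, det_aeval, h2]

end Main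

/-- **NRM.** -/
theorem pf_NRM (hSNF : T_SNF) : T_NRM := by
  intro L _ Ω _ _ _ hinj T S κ hκ hTl
  set φ := algebraMap (Polynomial L) Ω with hφ
  have hκ' : (C κ⁻¹ : Polynomial L) * C κ = 1 := by
    rw [← C_mul, inv_mul_cancel₀ hκ, C_1]
  set T₁ : Polynomial (Polynomial L) := C (C κ⁻¹) * T with hT₁
  have hmon : T₁.Monic := by
    rw [Monic, hT₁, leadingCoeff_mul, leadingCoeff_C, hTl, hκ']
  have hTT : T = C (C κ) * T₁ := by
    rw [hT₁, ← mul_assoc, ← C_mul, mul_comm (C κ), hκ', C_1, one_mul]
  have hroots : (T.map φ).roots = (T₁.map φ).roots := by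
    rw [hTT, Polynomial.map_mul, map_C, roots_C_mul]
    intro h
    have : (C κ : Polynomial L) = 0 := hinj (by rw [h, map_zero])
    rw [C_eq_zero] at this
    exact hκ this
  have hspan : Ideal.span {T, S} = Ideal.span {T₁} ⊔ Ideal.span {S} := by
    rw [← Ideal.span_insert]
    apply le_antisymm
    · rw [Ideal.span_le]
      rintro x (rfl | rfl)
      · rw [SetLike.mem_coe, hTT]
        exact Ideal.mul_mem_left _ _ (Ideal.subset_span (by simp))
      · exact Ideal.subset_span (by simp)
    · rw [Ideal.span_le]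
      rintro x (rfl | rfl)
      · exact Ideal.mul_mem_left _ _ (Ideal.subset_span (by simp))
      · exact Ideal.subset_span (by simp)
  set r : Polynomial L := Algebra.norm (Polynomial L) (AdjoinRoot.mk T₁ S) with hr
  have hrprod : φ r = ((T.map φ).roots.map fun ξ => (S.map φ).eval ξ).prod := by
    rw [hroots]
    exact norm_eq_prod φ T₁ hmon S
  refine ⟨r, hrprod, ?_, ?_⟩
  · intro hfin hr0
    rw [hr0, map_zero] at hrprod
    have h0 := Multiset.prod_eq_zero_iff.mp hrprod.symm
    rw [Multiset.mem_map] at h0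
    obtain ⟨ξ, hξ, hSξ⟩ := h0
    have hTξ : T.eval₂ φ ξ = 0 := by
      have := (mem_roots'.mp hξ).2
      rwa [IsRoot.def, eval_map] at this
    have hSξ' : S.eval₂ φ ξ = 0 := by rwa [eval_map] at hSξ
    let ψ : Polynomial (Polynomial L) →+* Ω := eval₂RingHom φ ξ
    have hker : ∀ a ∈ Ideal.span {T, S}, ψ a = 0 := by
      intro a ha
      have : Ideal.span {T, S} ≤ RingHom.ker ψ := by
        rw [Ideal.span_le]
        rintro x (rfl | rfl)
        · exact hTξ
        · exact hSξ'
      exact this ha
    let Ψ : (Polynomial (Polynomial L) ⧸ Ideal.span {T, S}) →+* Ω :=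
      Ideal.Quotient.lift _ ψ hker
    let j : Polynomial L →ₐ[L] (Polynomial (Polynomial L) ⧸ Ideal.span {T, S}) :=
      (Ideal.Quotient.mkₐ L (Ideal.span {T, S})).comp
        (IsScalarTower.toAlgHom L (Polynomial L) (Polynomial (Polynomial L)))
    have hj : Function.Injective j := by
      intro a b hab
      apply hinj
      have h1 : ∀ a, Ψ (j a) = φ a := by
        intro a
        show ψ (C a) = φ a
        exact eval₂_C φ ξ
      show φ a = φ b
      rw [← h1 a, ← h1 b, hab]
    have : Module.Finite L (Polynomial L) := Module.Finite.of_injective j.toLinearMap hj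
    exact Polynomial.not_finite this
  · intro hr0
    set b := (AdjoinRoot.powerBasis' hmon).basis with hb
    set d := (AdjoinRoot.powerBasis' hmon).dim with hd
    let s : AdjoinRoot T₁ := AdjoinRoot.mk T₁ S
    let e : AdjoinRoot T₁ ≃ₗ[Polynomial L] (Fin d → Polynomial L) := b.equivFun
    let f : AdjoinRoot T₁ →ₗ[Polynomial L] AdjoinRoot T₁ := Algebra.lmul (Polynomial L) _ s
    let g : (Fin d → Polynomial L) →ₗ[Polynomial L] (Fin d → Polynomial L) :=
      (e : AdjoinRoot T₁ →ₗ[Polynomial L] (Fin d → Polynomial L)) ∘ₗ f ∘ₗ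
        (e.symm : (Fin d → Polynomial L) →ₗ[Polynomial L] AdjoinRoot T₁)
    have hdet : LinearMap.det g = r := by
      show LinearMap.det ((e : AdjoinRoot T₁ →ₗ[Polynomial L] (Fin d → Polynomial L)) ∘ₗ f ∘ₗ
        (e.symm : (Fin d → Polynomial L) →ₗ[Polynomial L] AdjoinRoot T₁)) = r
      rw [LinearMap.det_conj, hr, Algebra.norm_apply]
    have h1 := hSNF L d g (by rw [hdet]; exact hr0)
    rw [hdet] at h1
    rw [← h1]
    -- the quotients
    have hmap2 : (LinearMap.range f).map (e : AdjoinRoot T₁ →ₗ[Polynomial L] _) =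
        LinearMap.range g := by
      ext x
      rw [Submodule.mem_map, LinearMap.mem_range]
      constructor
      · rintro ⟨_, ⟨a, rfl⟩, rfl⟩
        refine ⟨e a, ?_⟩
        show e (f (e.symm (e a))) = e (f a)
        rw [LinearEquiv.symm_apply_apply]
      · rintro ⟨a, rfl⟩
        exact ⟨f (e.symm a), ⟨e.symm a, rfl⟩, rfl⟩
    let π : Polynomial (Polynomial L) →ₗ[L] ((Fin d → Polynomial L) ⧸ LinearMap.range g) :=
      ((LinearMap.range g).mkQ.restrictScalars L) ∘ₗ
        ((e : AdjoinRoot T₁ →ₗ[Polynomial L] (Fin d → Polynomial L)).restrictScalars L) ∘ₗ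
        ((Ideal.Quotient.mkₐ L (Ideal.span {T₁})).toLinearMap :
          Polynomial (Polynomial L) →ₗ[L] AdjoinRoot T₁)
    have hπ : ∀ P, π P = (LinearMap.range g).mkQ (e (AdjoinRoot.mk T₁ P)) := fun P => rfl
    have hsurj : Function.Surjective π := by
      intro y
      obtain ⟨x, rfl⟩ := (LinearMap.range g).mkQ_surjective y
      obtain ⟨P, hP⟩ := AdjoinRoot.mk_surjective (e.symm x)
      refine ⟨P, ?_⟩
      rw [hπ, hP, LinearEquiv.apply_symm_apply]
    have hker : LinearMap.ker π = (Ideal.span {T, S}).restrictScalars L := by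
      ext P
      rw [LinearMap.mem_ker, Submodule.restrictScalars_mem, hπ, Submodule.mkQ_apply,
        Submodule.Quotient.mk_eq_zero, ← hmap2, hspan, Submodule.mem_map]
      constructor
      · rintro ⟨y, hy, hye⟩
        have hye' : y = AdjoinRoot.mk T₁ P := e.injective hye
        rw [hye'] at hy
        obtain ⟨a, ha⟩ := hy
        obtain ⟨Q, rfl⟩ := AdjoinRoot.mk_surjective a
        have h2 : AdjoinRoot.mk T₁ (P - S * Q) = 0 := by
          rw [map_sub, ← ha, map_mul]
          exact sub_self _
        rw [AdjoinRoot.mk_eq_zero] at h2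
        have h3 : P = (P - S * Q) + S * Q := by ring
        rw [h3]
        exact Ideal.add_mem _ (Ideal.mem_sup_left (Ideal.mem_span_singleton.mpr h2))
          (Ideal.mem_sup_right (Ideal.mem_span_singleton.mpr (dvd_mul_right _ _)))
      · intro hP
        obtain ⟨u, hu, w, hw, rfl⟩ := Submodule.mem_sup.mp hP
        obtain ⟨u', rfl⟩ := Ideal.mem_span_singleton.mp hu
        obtain ⟨w', rfl⟩ := Ideal.mem_span_singleton.mp hw
        refine ⟨f (AdjoinRoot.mk T₁ w'), ⟨_, rfl⟩, ?_⟩
        show e (AdjoinRoot.mk T₁ S * AdjoinRoot.mk T₁ w') = e (AdjoinRoot.mk T₁ (T₁ * u' + S * w'))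
        congr 1
        have h4 : AdjoinRoot.mk T₁ (T₁ * u') = 0 := AdjoinRoot.mk_eq_zero.mpr (dvd_mul_right _ _)
        rw [(AdjoinRoot.mk T₁).map_add, h4, zero_add, (AdjoinRoot.mk T₁).map_mul]
    have k1 := (π.quotKerEquivOfSurjective hsurj).finrank_eq
    have k2 := (Submodule.quotEquivOfEq _ _ hker).finrank_eq
    have k3 := (Submodule.Quotient.restrictScalarsEquiv L (Ideal.span {T, S})).finrank_eq
    rw [← k3, ← k2, k1]

end Pool.Agent.H67.ZA
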